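import Mathlib

/-! The core of Smyth's theorem: real power series which are contractions. -/

set_option autoImplicit false

open PowerSeries

namespace Pool.Agent.Helper7.GP

/-- sum of squares of the first coefficients -/
noncomputable def SR (N : ℕ) (v : PowerSeries ℝ) : ℝ :=
  ∑ n ∈ Finset.range (N + 1), (coeff n v) ^ 2

/-- multiplication by `F` is a contraction -/
def Con (F : PowerSeries ℝ) : Prop := ∀ N v, SR N (F * v) ≤ SR N v

lemma bil {F : PowerSeries ℝ} (hF : Con F) (N : ℕ) (a : ℕ → ℝ) (w : PowerSeries ℝ) (S : Finset ℕ)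
    (hS : S ⊆ Finset.range (N + 1)) (q : ℝ) (hw : SR N w ≤ q) (ha : ∑ n ∈ S, (a n) ^ 2 ≤ q) :
    |∑ n ∈ S, a n * coeff n (F * w)| ≤ q := by
  have h1 : ∑ n ∈ S, (coeff n (F * w)) ^ 2 ≤ q := by
    refine le_trans ?_ ((hF N w).trans hw)
    exact Finset.sum_le_sum_of_subset_of_nonneg hS (fun _ _ _ => sq_nonneg _)
  have h2 : 0 ≤ ∑ n ∈ S, (a n - coeff n (F * w)) ^ 2 := Finset.sum_nonneg fun _ _ => sq_nonneg _
  have h3 : 0 ≤ ∑ n ∈ S, (a n + coeff n (F * w)) ^ 2 := Finset.sum_nonneg fun _ _ => sq_nonneg _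
  have e2 : ∑ n ∈ S, (a n - coeff n (F * w)) ^ 2 = ∑ n ∈ S, (a n) ^ 2 +
      ∑ n ∈ S, (coeff n (F * w)) ^ 2 - 2 * ∑ n ∈ S, a n * coeff n (F * w) := by
    rw [Finset.mul_sum, ← Finset.sum_add_distrib, ← Finset.sum_sub_distrib]
    exact Finset.sum_congr rfl fun _ _ => by ring
  have e3 : ∑ n ∈ S, (a n + coeff n (F * w)) ^ 2 = ∑ n ∈ S, (a n) ^ 2 +
      ∑ n ∈ S, (coeff n (F * w)) ^ 2 + 2 * ∑ n ∈ S, a n * coeff n (F * w) := by
    rw [Finset.mul_sum, ← Finset.sum_add_distrib, ← Finset.sum_add_distrib]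
    exact Finset.sum_congr rfl fun _ _ => by ring
  rw [abs_le]
  constructor <;> linarith

lemma cf (F : PowerSeries ℝ) (a : ℝ) (d n : ℕ) :
    coeff n (F * (C a * X ^ d)) = if d ≤ n then a * coeff (n - d) F else 0 := by
  rw [show F * (C a * X ^ d) = C a * (F * X ^ d) by ring, coeff_C_mul, coeff_mul_X_pow']
  split_ifs <;> simp

lemma pos2 {F : PowerSeries ℝ} (hF : Con F) {k : ℕ} (hk : 0 < k) (α δ : ℝ) :
    |2 * coeff 0 F * α * δ + coeff k F * δ ^ 2| ≤ α ^ 2 + δ ^ 2 := by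
  have h := bil hF k (fun n => if n = 0 then α else δ) (C δ * X ^ 0 + C α * X ^ k) {0, k} ?_
    (α ^ 2 + δ ^ 2) ?_ ?_
  · rw [Finset.sum_pair hk.ne] at h
    simp only [mul_add, map_add, cf, if_neg hk.ne', le_refl, Nat.sub_zero,
      Nat.sub_self, Nat.zero_le, if_true, Nat.le_zero] at h
    convert h using 2
    ring
  · intro n hn
    simp only [Finset.mem_insert, Finset.mem_singleton] at hn
    rw [Finset.mem_range]
    omega
  · unfold SR
    have hsub : ({0, k} : Finset ℕ) ⊆ Finset.range (k + 1) := by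
      intro n hn
      simp only [Finset.mem_insert, Finset.mem_singleton] at hn
      rw [Finset.mem_range]
      omega
    rw [← Finset.sum_subset hsub, Finset.sum_pair hk.ne]
    · simp only [map_add, coeff_C_mul_X_pow, if_neg hk.ne, if_neg hk.ne', if_true]
      apply le_of_eq
      ring
    · intro n _ hn
      simp only [Finset.mem_insert, Finset.mem_singleton, not_or] at hn
      simp only [map_add, coeff_C_mul_X_pow, if_neg hn.1, if_neg hn.2]
      ring
  · rw [Finset.sum_pair hk.ne]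
    simp [hk.ne']

lemma pos3 {F : PowerSeries ℝ} (hF : Con F) {k : ℕ} (hk : 0 < k) (α β δ : ℝ) :
    |2 * coeff 0 F * α * δ + 2 * coeff k F * β * δ + coeff 0 F * β ^ 2 +
      coeff (2 * k) F * δ ^ 2| ≤ α ^ 2 + β ^ 2 + δ ^ 2 := by
  have h1 : (0 : ℕ) ∉ ({k, 2 * k} : Finset ℕ) := by
    simp only [Finset.mem_insert, Finset.mem_singleton]
    omega
  have h2 : k ≠ 2 * k := by omega
  have h20 : 2 * k ≠ 0 := by omega
  have hsub : ({0, k, 2 * k} : Finset ℕ) ⊆ Finset.range (2 * k + 1) := by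
    intro n hn
    simp only [Finset.mem_insert, Finset.mem_singleton] at hn
    rw [Finset.mem_range]
    omega
  have h := bil hF (2 * k) (fun n => if n = 0 then α else if n = k then β else δ)
    (C δ * X ^ 0 + C β * X ^ k + C α * X ^ (2 * k)) {0, k, 2 * k} hsub
    (α ^ 2 + β ^ 2 + δ ^ 2) ?_ ?_
  · rw [Finset.sum_insert h1, Finset.sum_pair h2] at h
    have e1 : ¬ k ≤ 0 := by omega
    have e2 : ¬ 2 * k ≤ 0 := by omega
    have e3 : ¬ 2 * k ≤ k := by omega
    have e4 : k ≤ 2 * k := by omega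
    have e5 : 2 * k - k = k := by omega
    simp only [mul_add, map_add, cf, if_neg hk.ne', if_neg h20, if_neg h2.symm, le_refl,
      Nat.sub_zero, Nat.sub_self, Nat.zero_le, if_true, if_neg e1, if_neg e2, if_neg e3,
      if_pos e4, e5] at h
    convert h using 2
    ring
  · unfold SR
    rw [← Finset.sum_subset hsub, Finset.sum_insert h1, Finset.sum_pair h2]
    · simp only [map_add, coeff_C_mul_X_pow, if_neg hk.ne, if_neg hk.ne', if_true, if_neg h2,
        if_neg h2.symm, if_neg h20, if_neg h20.symm]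
      apply le_of_eq
      ring
    · intro n _ hn
      simp only [Finset.mem_insert, Finset.mem_singleton, not_or] at hn
      simp only [map_add, coeff_C_mul_X_pow, if_neg hn.1, if_neg hn.2.1, if_neg hn.2.2]
      ring
  · rw [Finset.sum_insert h1, Finset.sum_pair h2]
    simp only [if_true, if_neg hk.ne', if_neg h20, if_neg h2.symm]
    apply le_of_eq
    ring

lemma pos4 {F : PowerSeries ℝ} (hF : Con F) {m k : ℕ} (hm : 0 < m) (hk : m < k) (α β γ δ : ℝ) :
    |2 * coeff 0 F * α * δ + 2 * coeff 0 F * β * γ + 2 * coeff m F * β * δ +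
      coeff (k - m) F * γ ^ 2 + 2 * coeff k F * γ * δ + coeff (k + m) F * δ ^ 2| ≤
      α ^ 2 + β ^ 2 + γ ^ 2 + δ ^ 2 := by
  have h1 : (0 : ℕ) ∉ ({m, k, k + m} : Finset ℕ) := by
    simp only [Finset.mem_insert, Finset.mem_singleton]
    omega
  have h2 : m ∉ ({k, k + m} : Finset ℕ) := by
    simp only [Finset.mem_insert, Finset.mem_singleton]
    omega
  have h3 : k ≠ k + m := by omega
  have hsub : ({0, m, k, k + m} : Finset ℕ) ⊆ Finset.range (k + m + 1) := by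
    intro n hn
    simp only [Finset.mem_insert, Finset.mem_singleton] at hn
    rw [Finset.mem_range]
    omega
  have n1 : m ≠ 0 := by omega
  have n2 : k ≠ 0 := by omega
  have n3 : k + m ≠ 0 := by omega
  have n4 : k ≠ m := by omega
  have n5 : k + m ≠ m := by omega
  have n6 : k + m ≠ k := by omega
  have h := bil hF (k + m) (fun n => if n = 0 then α else if n = m then β else if n = k then γ
    else δ) (C δ * X ^ 0 + C γ * X ^ m + C β * X ^ k + C α * X ^ (k + m)) {0, m, k, k + m} hsub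
    (α ^ 2 + β ^ 2 + γ ^ 2 + δ ^ 2) ?_ ?_
  · rw [Finset.sum_insert h1, Finset.sum_insert h2, Finset.sum_pair h3] at h
    have e1 : ¬ m ≤ 0 := by omega
    have e2 : ¬ k ≤ 0 := by omega
    have e3 : ¬ k + m ≤ 0 := by omega
    have e4 : ¬ k ≤ m := by omega
    have e5 : ¬ k + m ≤ m := by omega
    have e6 : ¬ k + m ≤ k := by omega
    have e7 : m ≤ k + m := by omega
    have e8 : k ≤ k + m := by omega
    have e9 : k + m - m = k := by omega
    have e10 : k + m - k = m := by omega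
    simp only [mul_add, map_add, cf, if_neg n1, if_neg n2, if_neg n3, if_neg n4, if_neg n5,
      if_neg n6, le_refl, Nat.sub_zero, Nat.sub_self, Nat.zero_le, if_true, if_neg e1, if_neg e2,
      if_neg e3, if_neg e4, if_neg e5, if_neg e6, if_pos e7, if_pos e8, if_pos hk.le, e9, e10] at h
    convert h using 2
    ring
  · unfold SR
    rw [← Finset.sum_subset hsub, Finset.sum_insert h1, Finset.sum_insert h2, Finset.sum_pair h3]
    · simp only [map_add, coeff_C_mul_X_pow, if_true, if_neg n1, if_neg n2, if_neg n3, if_neg n4,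
        if_neg n5, if_neg n6, if_neg n1.symm, if_neg n2.symm, if_neg n3.symm, if_neg n4.symm,
        if_neg n5.symm, if_neg n6.symm]
      apply le_of_eq
      ring
    · intro n _ hn
      simp only [Finset.mem_insert, Finset.mem_singleton, not_or] at hn
      simp only [map_add, coeff_C_mul_X_pow, if_neg hn.1, if_neg hn.2.1, if_neg hn.2.2.1,
        if_neg hn.2.2.2]
      ring
  · rw [Finset.sum_insert h1, Finset.sum_insert h2, Finset.sum_pair h3]
    simp only [if_true, if_neg n1, if_neg n2, if_neg n3, if_neg n4, if_neg n5, if_neg n6]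
    apply le_of_eq
    ring

lemma bound2 {F : PowerSeries ℝ} (hF : Con F) {k : ℕ} (hk : 0 < k) :
    |coeff k F| ≤ 1 - coeff 0 F ^ 2 := by
  have h1 := abs_le.1 (pos2 hF hk (coeff 0 F) 1)
  have h2 := abs_le.1 (pos2 hF hk (-coeff 0 F) 1)
  rw [abs_le]
  constructor
  · nlinarith [h1.1, h2.1]
  · nlinarith [h1.2, h2.2]

/-- the algebra of the first case -/
lemma algA {c x y : ℝ} (hc0 : 0 < c) (hc1 : c < 1) (hc : 1 < c ^ 3 + c ^ 2) (hxy : x + y = c)
    (hy : y ≤ 1 - c ^ 2)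
    (h : (1 - c ^ 2) * x + x ^ 2 * (1 + c) + y ^ 2 * (1 - c) ≤ 2 * (1 - c ^ 2) ^ 2) : False := by
  have ht : 0 < c ^ 2 + c - 1 := by nlinarith [mul_pos hc0 hc0]
  have hx : c ^ 2 + c - 1 ≤ x := by linarith
  have hy' : y = c - x := by linarith
  subst hy'
  have e : (1 - c ^ 2) * x + x ^ 2 * (1 + c) + (c - x) ^ 2 * (1 - c) - 2 * (1 - c ^ 2) ^ 2 =
      (x - (c ^ 2 + c - 1)) * ((1 - c) ^ 2 + 2 * (x + (c ^ 2 + c - 1))) +
        (1 + c) * (c ^ 3 + c ^ 2 - 1) := by ring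
  have h1 : 0 ≤ (x - (c ^ 2 + c - 1)) * ((1 - c) ^ 2 + 2 * (x + (c ^ 2 + c - 1))) := by
    apply mul_nonneg (by linarith)
    nlinarith [sq_nonneg (1 - c)]
  have h2 : 0 < (1 + c) * (c ^ 3 + c ^ 2 - 1) := mul_pos (by linarith) (by linarith)
  linarith

/-- the algebra of the second case -/
lemma algB {c u : ℝ} (hc0 : 0 < c) (hc : 1 < c ^ 3 + c ^ 2) (hc2 : c ≤ 2 * (1 - c ^ 2))
    (h1 : c ^ 2 * (1 - 2 * u) ^ 2 ≤ 2 * (1 - c ^ 2) * (2 * (1 - c ^ 2) - 2 * u ^ 2 + u - c))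
    (h2 : c ^ 2 * (1 + 2 * u) ^ 2 ≤ 2 * (1 - c ^ 2) * (2 * (1 - c ^ 2) - 2 * u ^ 2 - u + c)) :
    False := by
  have hlo : 0.7548 < c := by
    by_contra h
    rw [not_lt] at h
    have : c ^ 2 ≤ 0.7548 ^ 2 := by gcongr
    have : c ^ 3 ≤ 0.7548 ^ 3 := by gcongr
    norm_num at *
    linarith
  have hhi : c < 0.781 := by
    by_contra h
    rw [not_lt] at h
    nlinarith
  have e1 : 0 ≤ 4 * c ^ 4 + 2 * c ^ 3 - 9 * c ^ 2 - 2 * c + 4 + (2 + 2 * c ^ 2) * u - 4 * u ^ 2 := by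
    nlinarith
  have e2 : 0 ≤ 4 * c ^ 4 - 2 * c ^ 3 - 9 * c ^ 2 + 2 * c + 4 - (2 + 2 * c ^ 2) * u - 4 * u ^ 2 := by
    nlinarith
  have p1 : 4 * c ^ 4 + 2 * c ^ 3 - 9 * c ^ 2 - 2 * c + 4 + (2 + 2 * c ^ 2) * 0.207 -
      4 * 0.207 ^ 2 < 0 := by
    have f1 : 4 * c ^ 4 + 2 * c ^ 3 - 9 * c ^ 2 - 2 * c + 4 + (2 + 2 * c ^ 2) * 0.207 -
        4 * 0.207 ^ 2 = (c - 0.7548) * (4 * c ^ 3 + (2 + 4 * 0.7548) * c ^ 2 +
          (-8.586 + 0.7548 * (2 + 4 * 0.7548)) * c +
          (-2 + 0.7548 * (-8.586 + 0.7548 * (2 + 4 * 0.7548)))) +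
        (4.242604 + 0.7548 * (-2 + 0.7548 * (-8.586 + 0.7548 * (2 + 4 * 0.7548)))) := by
      ring
    have f2 : 4 * c ^ 3 + (2 + 4 * 0.7548) * c ^ 2 +
          (-8.586 + 0.7548 * (2 + 4 * 0.7548)) * c +
          (-2 + 0.7548 * (-8.586 + 0.7548 * (2 + 4 * 0.7548))) < 0 := by
      have g1 : c ^ 2 < 0.61 := by nlinarith
      have g2 : c ^ 3 < 0.4765 := by nlinarith
      norm_num
      nlinarith
    rw [f1]
    have f3 : (c - 0.7548) * (4 * c ^ 3 + (2 + 4 * 0.7548) * c ^ 2 +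
          (-8.586 + 0.7548 * (2 + 4 * 0.7548)) * c +
          (-2 + 0.7548 * (-8.586 + 0.7548 * (2 + 4 * 0.7548)))) < 0 :=
      mul_neg_of_pos_of_neg (by linarith) f2
    have f4 : (4.242604 + 0.7548 * (-2 + 0.7548 * (-8.586 + 0.7548 * (2 + 4 * 0.7548))) : ℝ) < 0 := by
      norm_num
    linarith
  have p2 : 4 * c ^ 4 - 2 * c ^ 3 - 9 * c ^ 2 + 2 * c + 4 - (2 + 2 * c ^ 2) * 0.207 -
      4 * 0.207 ^ 2 < 0 := by
    have f1 : 4 * c ^ 4 - 2 * c ^ 3 - 9 * c ^ 2 + 2 * c + 4 - (2 + 2 * c ^ 2) * 0.207 -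
        4 * 0.207 ^ 2 = (c - 0.7548) * (4 * c ^ 3 + (-2 + 4 * 0.7548) * c ^ 2 +
          (-9.414 + 0.7548 * (-2 + 4 * 0.7548)) * c +
          (2 + 0.7548 * (-9.414 + 0.7548 * (-2 + 4 * 0.7548)))) +
        (3.414604 + 0.7548 * (2 + 0.7548 * (-9.414 + 0.7548 * (-2 + 4 * 0.7548)))) := by
      ring
    have f2 : 4 * c ^ 3 + (-2 + 4 * 0.7548) * c ^ 2 +
          (-9.414 + 0.7548 * (-2 + 4 * 0.7548)) * c +
          (2 + 0.7548 * (-9.414 + 0.7548 * (-2 + 4 * 0.7548))) < 0 := by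
      have g1 : c ^ 2 < 0.61 := by nlinarith
      have g2 : c ^ 3 < 0.4765 := by nlinarith
      norm_num
      nlinarith
    rw [f1]
    have f3 : (c - 0.7548) * (4 * c ^ 3 + (-2 + 4 * 0.7548) * c ^ 2 +
          (-9.414 + 0.7548 * (-2 + 4 * 0.7548)) * c +
          (2 + 0.7548 * (-9.414 + 0.7548 * (-2 + 4 * 0.7548)))) < 0 :=
      mul_neg_of_pos_of_neg (by linarith) f2
    have f4 : (3.414604 + 0.7548 * (2 + 0.7548 * (-9.414 + 0.7548 * (-2 + 4 * 0.7548))) : ℝ) < 0 := by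
      norm_num
    linarith
  rcases le_total u 0.207 with h | h
  · have g3 : 4 * (u + 0.207) ≤ 2 + 2 * c ^ 2 := by nlinarith
    nlinarith [mul_nonneg (sub_nonneg.2 h) (sub_nonneg.2 g3)]
  · have g3 : 0 ≤ 2 + 2 * c ^ 2 + 4 * (u + 0.207) := by nlinarith
    nlinarith [mul_nonneg (sub_nonneg.2 h) g3]

lemma caseA {F H : PowerSeries ℝ} (hF : Con F) (hH : Con H) {c : ℝ} (hc0 : 0 < c)
    (hFc : coeff 0 F = c) (hHc : coeff 0 H = c) {k : ℕ} (hk : 0 < k)
    (h1 : coeff k F = coeff k H + c) (g : ℤ)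
    (h2 : coeff (2 * k) F = coeff (2 * k) H + coeff k H + g * c) : c ^ 3 + c ^ 2 ≤ 1 := by
  by_contra hcon
  rw [not_le] at hcon
  have bF := abs_le.1 (bound2 hF hk)
  have bH := abs_le.1 (bound2 hH hk)
  rw [hFc] at bF
  rw [hHc] at bH
  obtain ⟨x, hx⟩ : ∃ x, x = coeff k F := ⟨_, rfl⟩
  obtain ⟨y, hy⟩ : ∃ y, y = - coeff k H := ⟨_, rfl⟩
  obtain ⟨p, hp⟩ : ∃ p, p = coeff (2 * k) F := ⟨_, rfl⟩
  obtain ⟨q, hq⟩ : ∃ q, q = coeff (2 * k) H := ⟨_, rfl⟩
  have hH' : coeff k H = - y := by rw [hy, neg_neg]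
  rw [← hx] at bF h1
  rw [hH'] at bH h1 h2
  rw [← hp, ← hq] at h2
  have hxy : x + y = c := by linarith
  have hcE : c ≤ 2 * (1 - c ^ 2) := by linarith [bF.2, bH.1]
  have hc1 : c < 1 := by nlinarith
  have hcE0 : 0 < 1 - c := by linarith
  -- the two bounds
  have up : ∀ (G : PowerSeries ℝ), Con G → coeff 0 G = c →
      coeff (2 * k) G * (1 - c) ≤ (1 - c ^ 2) * (1 - c) - coeff k G ^ 2 ∧
      -(coeff (2 * k) G * (1 + c)) ≤ (1 - c ^ 2) * (1 + c) - coeff k G ^ 2 := by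
    intro G hG hGc
    have a1 := (abs_le.1 (pos3 hG hk (c * (1 - c)) (coeff k G) (1 - c))).2
    have a2 := (abs_le.1 (pos3 hG hk (-(c * (1 + c))) (-coeff k G) (1 + c))).1
    rw [hGc] at a1 a2
    constructor
    · have a3 : (1 - c) * (coeff (2 * k) G * (1 - c)) ≤
          (1 - c) * ((1 - c ^ 2) * (1 - c) - coeff k G ^ 2) := by nlinarith
      exact le_of_mul_le_mul_left a3 hcE0
    · have a3 : (1 + c) * (-(coeff (2 * k) G * (1 + c))) ≤
          (1 + c) * ((1 - c ^ 2) * (1 + c) - coeff k G ^ 2) := by nlinarith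
      exact le_of_mul_le_mul_left a3 (by linarith)
  obtain ⟨f1, f2⟩ := up F hF hFc
  obtain ⟨g1, g2⟩ := up H hH hHc
  rw [← hx, ← hp] at f1 f2
  rw [hH', ← hq] at g1 g2
  rcases le_or_gt g 0 with hg | hg
  · -- `g ≤ 0`
    have hg' : (g : ℝ) ≤ 0 := by exact_mod_cast hg
    refine algA (x := y) (y := x) hc0 hc1 hcon (by linarith) bF.2 ?_
    have h3 : y ≤ q - p := by nlinarith
    have h4 : (1 - c ^ 2) * y ≤ (1 - c ^ 2) * (q - p) :=
      mul_le_mul_of_nonneg_left h3 (by nlinarith)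
    nlinarith [mul_le_mul_of_nonneg_left g1 (by linarith : (0 : ℝ) ≤ 1 + c),
      mul_le_mul_of_nonneg_left f2 (by linarith : (0 : ℝ) ≤ 1 - c)]
  · have hg' : (1 : ℝ) ≤ g := by exact_mod_cast hg
    refine algA (x := x) (y := y) hc0 hc1 hcon (by linarith) (by linarith [bH.1]) ?_
    have h3 : x ≤ p - q := by nlinarith
    have h4 : (1 - c ^ 2) * x ≤ (1 - c ^ 2) * (p - q) :=
      mul_le_mul_of_nonneg_left h3 (by nlinarith)
    nlinarith [mul_le_mul_of_nonneg_left f1 (by linarith : (0 : ℝ) ≤ 1 + c),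
      mul_le_mul_of_nonneg_left g2 (by linarith : (0 : ℝ) ≤ 1 - c)]

lemma caseB {F H : PowerSeries ℝ} (hF : Con F) (hH : Con H) {c : ℝ} (hc0 : 0 < c)
    (hFc : coeff 0 F = c) (hHc : coeff 0 H = c) {m k : ℕ} (hm : 0 < m) (hk : m < k)
    (hu : coeff m F = coeff m H) (hw : coeff (k - m) F = coeff (k - m) H)
    (h1 : coeff k F = coeff k H + c) (g : ℤ) (hg : g ≠ 0)
    (h2 : coeff (k + m) F = coeff (k + m) H + coeff m H + g * c) : c ^ 3 + c ^ 2 ≤ 1 := by
  by_contra hcon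
  rw [not_le] at hcon
  have hk0 : 0 < k := by omega
  have bF := abs_le.1 (bound2 hF hk0)
  have bH := abs_le.1 (bound2 hH hk0)
  have bu := abs_le.1 (bound2 hH hm)
  have bp := abs_le.1 (bound2 hF (by omega : 0 < k + m))
  have bq := abs_le.1 (bound2 hH (by omega : 0 < k + m))
  rw [hFc] at bF bp
  rw [hHc] at bH bu bq
  have hcE : c ≤ 2 * (1 - c ^ 2) := by linarith [bF.2, bH.1]
  have hlo : 3 / 4 < c := by
    by_contra h
    rw [not_lt] at h
    have : c ^ 2 ≤ (3 / 4) ^ 2 := by gcongr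
    have : c ^ 3 ≤ (3 / 4) ^ 3 := by gcongr
    norm_num at *
    linarith
  have hE : 1 - c ^ 2 < 7 / 16 := by nlinarith
  have hE0 : 0 < 1 - c ^ 2 := by linarith
  -- the two inequalities
  have main : ∀ α β γ δ : ℝ,
      -(2 * (α ^ 2 + β ^ 2 + γ ^ 2 + δ ^ 2)) ≤ 4 * c * α * δ + 4 * c * β * γ +
        4 * coeff m H * β * δ + 2 * c * γ * δ + (coeff m H + g * c) * δ ^ 2 ∧
      4 * c * α * δ + 4 * c * β * γ +
        4 * coeff m H * β * δ + 2 * c * γ * δ + (coeff m H + g * c) * δ ^ 2 ≤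
        2 * (α ^ 2 + β ^ 2 + γ ^ 2 + δ ^ 2) := by
    intro α β γ δ
    have a1 := abs_le.1 (pos4 hF hm hk α β γ δ)
    have a2 := abs_le.1 (pos4 hH hm hk (-α) (-β) γ δ)
    rw [hFc, hu, hw, h1, h2] at a1
    rw [hHc] at a2
    constructor
    · nlinarith [a1.1, a2.2]
    · nlinarith [a1.2, a2.1]
  obtain ⟨u, hu'⟩ : ∃ u, u = coeff m H := ⟨_, rfl⟩
  rw [← hu'] at main bu h2
  have m1 : c ^ 2 * (1 - 2 * u) ^ 2 ≤
      2 * (1 - c ^ 2) * (2 * (1 - c ^ 2) - 2 * u ^ 2 + u + g * c) := by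
    have h3 := (main (-c * (2 * (1 - c ^ 2)))
      (-(c * (-(c * (1 - 2 * u))) + u * (2 * (1 - c ^ 2)))) (-(c * (1 - 2 * u)))
      (2 * (1 - c ^ 2))).1
    have h4 : 2 * (1 - c ^ 2) * (c ^ 2 * (1 - 2 * u) ^ 2) ≤ 2 * (1 - c ^ 2) *
        (2 * (1 - c ^ 2) * (2 * (1 - c ^ 2) - 2 * u ^ 2 + u + g * c)) := by nlinarith
    exact le_of_mul_le_mul_left h4 (by linarith)
  have m2 : c ^ 2 * (1 + 2 * u) ^ 2 ≤
      2 * (1 - c ^ 2) * (2 * (1 - c ^ 2) - 2 * u ^ 2 - u - g * c) := by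
    have h3 := (main (c * (2 * (1 - c ^ 2)))
      (c * (c * (1 + 2 * u)) + u * (2 * (1 - c ^ 2))) (c * (1 + 2 * u))
      (2 * (1 - c ^ 2))).2
    have h4 : 2 * (1 - c ^ 2) * (c ^ 2 * (1 + 2 * u) ^ 2) ≤ 2 * (1 - c ^ 2) *
        (2 * (1 - c ^ 2) * (2 * (1 - c ^ 2) - 2 * u ^ 2 - u - g * c)) := by nlinarith
    exact le_of_mul_le_mul_left h4 (by linarith)
  have hgle : g ≤ 1 := by
    by_contra h
    have h3 : (2 : ℝ) ≤ g := by exact_mod_cast (by omega : (2 : ℤ) ≤ g)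
    nlinarith [bp.2, bq.1, bu.1]
  have hgge : -1 ≤ g := by
    by_contra h
    have h3 : (g : ℝ) ≤ -2 := by exact_mod_cast (by omega : g ≤ (-2 : ℤ))
    nlinarith [bp.1, bq.2, bu.2]
  obtain hg1 | hg1 : g = -1 ∨ g = 1 := by omega
  · rw [hg1] at m1 m2
    push_cast at m1 m2
    refine algB (u := u) hc0 hcon hcE ?_ ?_
    · refine m1.trans (le_of_eq ?_)
      ring
    · refine m2.trans (le_of_eq ?_)
      ring
  · rw [hg1] at m1 m2
    push_cast at m1 m2
    refine algB (u := -u) hc0 hcon hcE ?_ ?_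
    · refine le_trans (le_of_eq ?_) (m2.trans (le_of_eq ?_))
      · ring
      · ring
    · refine le_trans (le_of_eq ?_) (m1.trans (le_of_eq ?_))
      · ring
      · ring

/-- the coefficients of a product with a lacunary series -/
lemma rel3 {F H : PowerSeries ℝ} {G : PowerSeries ℤ}
    (hrel : F = H * PowerSeries.map (Int.castRingHom ℝ) G) (hG0 : coeff 0 G = 1) {k n : ℕ}
    (hk : 0 < k) (hkn : k < n) (hz : ∀ j, 0 < j → j < n → j ≠ k → coeff j G = 0) :
    coeff n F = coeff n H + coeff k G * coeff (n - k) H + coeff n G * coeff 0 H := by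
  rw [hrel, mul_comm, coeff_mul, Finset.Nat.sum_antidiagonal_eq_sum_range_succ
    (fun i j => coeff i (PowerSeries.map (Int.castRingHom ℝ) G) * coeff j H)]
  have hsub : ({0, k, n} : Finset ℕ) ⊆ Finset.range (n + 1) := by
    intro j hj
    simp only [Finset.mem_insert, Finset.mem_singleton] at hj
    rw [Finset.mem_range]
    omega
  have h1 : (0 : ℕ) ∉ ({k, n} : Finset ℕ) := by
    simp only [Finset.mem_insert, Finset.mem_singleton]
    omega
  have h2 : k ≠ n := by omega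
  rw [← Finset.sum_subset hsub, Finset.sum_insert h1, Finset.sum_pair h2]
  · simp only [coeff_map, hG0, Nat.sub_zero, Nat.sub_self]
    simp
    ring
  · intro j hj hj'
    simp only [Finset.mem_insert, Finset.mem_singleton, not_or] at hj'
    rw [Finset.mem_range] at hj
    rw [coeff_map, hz j (by omega) (by omega) hj'.2.1]
    simp

/-- the coefficients before the first nonzero one, and at the first one -/
lemma rel2 {F H : PowerSeries ℝ} {G : PowerSeries ℤ}
    (hrel : F = H * PowerSeries.map (Int.castRingHom ℝ) G) (hG0 : coeff 0 G = 1) {n : ℕ}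
    (hn : 0 < n) (hz : ∀ j, 0 < j → j < n → coeff j G = 0) :
    coeff n F = coeff n H + coeff n G * coeff 0 H := by
  rw [hrel, mul_comm, coeff_mul, Finset.Nat.sum_antidiagonal_eq_sum_range_succ
    (fun i j => coeff i (PowerSeries.map (Int.castRingHom ℝ) G) * coeff j H)]
  have hsub : ({0, n} : Finset ℕ) ⊆ Finset.range (n + 1) := by
    intro j hj
    simp only [Finset.mem_insert, Finset.mem_singleton] at hj
    rw [Finset.mem_range]
    omega
  rw [← Finset.sum_subset hsub, Finset.sum_pair hn.ne]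
  · simp only [coeff_map, hG0, Nat.sub_zero, Nat.sub_self]
    simp
  · intro j hj hj'
    simp only [Finset.mem_insert, Finset.mem_singleton, not_or] at hj'
    rw [Finset.mem_range] at hj
    rw [coeff_map, hz j (by omega) (by omega)]
    simp

/-- the core of Smyth's theorem -/
theorem core {F H : PowerSeries ℝ} (hF : Con F) (hH : Con H) {c : ℝ} (hc0 : 0 < c)
    (hFc : coeff 0 F = c) (hHc : coeff 0 H = c) {G : PowerSeries ℤ}
    (hrel : F = H * PowerSeries.map (Int.castRingHom ℝ) G) (hG0 : coeff 0 G = 1)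
    (hG : ∃ n, 0 < n ∧ coeff n G ≠ 0) : c ^ 3 + c ^ 2 ≤ 1 := by
  classical
  by_contra hcon
  have hcon' := not_le.1 hcon
  obtain ⟨k, ⟨hk, hak⟩, hmin⟩ : ∃ k, (0 < k ∧ coeff k G ≠ 0) ∧
      ∀ j, 0 < j → j < k → coeff j G = 0 := by
    refine ⟨Nat.find hG, Nat.find_spec hG, ?_⟩
    intro j hj hjk
    by_contra h
    exact Nat.find_min hG hjk ⟨hj, h⟩
  have rk := rel2 hrel hG0 hk hmin
  rw [hHc] at rk
  have rlt : ∀ j, 0 < j → j < k → coeff j F = coeff j H := by
    intro j hj hjk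
    have h1 := rel2 hrel hG0 hj (fun i hi hij => hmin i hi (hij.trans hjk))
    rw [hmin j hj hjk] at h1
    simpa using h1
  have bF := abs_le.1 (bound2 hF hk)
  have bH := abs_le.1 (bound2 hH hk)
  rw [hFc] at bF
  rw [hHc] at bH
  have hc34 : 3 / 4 < c := by
    by_contra h
    rw [not_lt] at h
    have : c ^ 2 ≤ (3 / 4) ^ 2 := by gcongr
    have : c ^ 3 ≤ (3 / 4) ^ 3 := by gcongr
    norm_num at *
    linarith
  -- `|a k| = 1`
  have hle : coeff k G ≤ 1 := by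
    by_contra h
    have h3 : (2 : ℝ) ≤ (coeff k G : ℤ) := by exact_mod_cast (by omega : (2 : ℤ) ≤ coeff k G)
    nlinarith [bF.2, bH.1]
  have hge : -1 ≤ coeff k G := by
    by_contra h
    have h3 : ((coeff k G : ℤ) : ℝ) ≤ -2 := by
      exact_mod_cast (by omega : coeff k G ≤ (-2 : ℤ))
    nlinarith [bF.1, bH.2]
  have hone : coeff k G = 1 ∨ coeff k G = -1 := by omega
  by_cases hl : ∃ l, (k < l ∧ l < 2 * k) ∧ coeff l G ≠ 0
  · obtain ⟨l, ⟨⟨hl1, hl2⟩, hl3⟩, hlmin⟩ : ∃ l, ((k < l ∧ l < 2 * k) ∧ coeff l G ≠ 0) ∧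
        ∀ j, k < j → j < l → coeff j G = 0 := by
      refine ⟨Nat.find hl, Nat.find_spec hl, ?_⟩
      intro j hj hjl
      by_contra h
      have h1 := (Nat.find_spec hl).1.2
      exact Nat.find_min hl hjl ⟨⟨hj, hjl.trans h1⟩, h⟩
    have hz : ∀ j, 0 < j → j < l → j ≠ k → coeff j G = 0 := by
      intro j h1 h2 h3
      rcases lt_or_gt_of_ne h3 with h4 | h4
      · exact hmin j h1 h4
      · exact hlmin j h4 h2
    have rl := rel3 hrel hG0 hk hl1 hz
    obtain ⟨m, rfl⟩ : ∃ m, l = k + m := ⟨l - k, by omega⟩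
    have e1 : k + m - k = m := by omega
    rw [e1, hHc] at rl
    have hm : 0 < m := by omega
    have hmk : m < k := by omega
    have hum := rlt m hm hmk
    have hwm := rlt (k - m) (by omega) (by omega)
    rcases hone with h1 | h1
    · rw [h1] at rk rl
      push_cast at rk rl
      rw [one_mul] at rk rl
      exact hcon (caseB hF hH hc0 hFc hHc hm hmk hum hwm rk _ hl3 rl)
    · rw [h1] at rk rl
      push_cast at rk rl
      refine hcon (caseB hH hF hc0 hHc hFc hm hmk hum.symm hwm.symm (by linarith)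
        (-coeff (k + m) G) (neg_ne_zero.2 hl3) ?_)
      push_cast
      rw [hum]
      linarith
  · have hz : ∀ j, 0 < j → j < 2 * k → j ≠ k → coeff j G = 0 := by
      intro j h1 h2 h3
      rcases lt_or_gt_of_ne h3 with h4 | h4
      · exact hmin j h1 h4
      · by_contra h5
        exact hl ⟨j, ⟨h4, h2⟩, h5⟩
    have rl := rel3 hrel hG0 hk (by omega : k < 2 * k) hz
    have e1 : 2 * k - k = k := by omega
    rw [e1, hHc] at rl
    rcases hone with h1 | h1
    · rw [h1] at rk rl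
      push_cast at rk rl
      rw [one_mul] at rk rl
      exact hcon (caseA hF hH hc0 hFc hHc hk rk _ rl)
    · rw [h1] at rk rl
      push_cast at rk rl
      refine hcon (caseA hH hF hc0 hHc hFc hk (by linarith) (1 - coeff (2 * k) G) ?_)
      push_cast
      linarith

end Pool.Agent.Helper7.GP
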