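import Pool.Agent.Helper40.GP.Stm
import Pool.Agent.Helper7.GP.Core

/-! Package SM: Smyth's theorem. -/

set_option autoImplicit false

open Polynomial Pool.Agent.Helper40.GP

namespace Pool.Agent.Helper7.GP

/-! ### inner power series (after Pool.Graph.R_seed8.H338R2.Smyth) -/

/-- sum of squares of the first coefficients -/
noncomputable def SN (N : ℕ) (v : PowerSeries ℂ) : ℝ :=
  ∑ n ∈ Finset.range (N + 1), ‖PowerSeries.coeff n v‖ ^ 2

/-- the power series `1 - conj a X` -/
noncomputable def uA (a : ℂ) : PowerSeries ℂ := 1 - PowerSeries.C (starRingEnd ℂ a) * PowerSeries.X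
/-- the power series `X - a` -/
noncomputable def uB (a : ℂ) : PowerSeries ℂ := PowerSeries.X - PowerSeries.C a

lemma SN_key (a : ℂ) (y : PowerSeries ℂ) (N : ℕ) :
    SN N (uA a * y) - SN N (uB a * y) = (1 - ‖a‖ ^ 2) * ‖PowerSeries.coeff N y‖ ^ 2 := by
  have hA0 : PowerSeries.coeff 0 (uA a * y) = PowerSeries.coeff 0 y := by
    simp [uA]
  have hB0 : PowerSeries.coeff 0 (uB a * y) = - a * PowerSeries.coeff 0 y := by
    simp [uB]
  have hA : ∀ n, PowerSeries.coeff (n + 1) (uA a * y) =
      PowerSeries.coeff (n + 1) y - (starRingEnd ℂ a) * PowerSeries.coeff n y := by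
    intro n
    rw [uA, sub_mul, one_mul, map_sub, mul_assoc, PowerSeries.coeff_C_mul, mul_comm PowerSeries.X,
      PowerSeries.coeff_succ_mul_X]
  have hB : ∀ n, PowerSeries.coeff (n + 1) (uB a * y) =
      PowerSeries.coeff n y - a * PowerSeries.coeff (n + 1) y := by
    intro n
    rw [uB, sub_mul, map_sub, PowerSeries.coeff_C_mul, mul_comm PowerSeries.X,
      PowerSeries.coeff_succ_mul_X]
  induction N with
  | zero =>
    rw [SN, SN, Finset.sum_range_one, Finset.sum_range_one, hA0, hB0, norm_mul, norm_neg]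
    ring
  | succ N ih =>
    have e1 : SN (N + 1) (uA a * y) = SN N (uA a * y) + ‖PowerSeries.coeff (N + 1) (uA a * y)‖ ^ 2 := by
      rw [SN, Finset.sum_range_succ, SN]
    have e2 : SN (N + 1) (uB a * y) = SN N (uB a * y) + ‖PowerSeries.coeff (N + 1) (uB a * y)‖ ^ 2 := by
      rw [SN, Finset.sum_range_succ, SN]
    rw [e1, e2, hA, hB]
    have h3 : ∀ s t : ℂ, ‖t - (starRingEnd ℂ a) * s‖ ^ 2 - ‖s - a * t‖ ^ 2 =
        (1 - ‖a‖ ^ 2) * (‖t‖ ^ 2 - ‖s‖ ^ 2) := by
      intro s t
      simp only [Complex.sq_norm, Complex.normSq_apply, Complex.sub_re, Complex.sub_im,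
        Complex.mul_re, Complex.mul_im, Complex.conj_re, Complex.conj_im]
      ring
    have h4 := h3 (PowerSeries.coeff N y) (PowerSeries.coeff (N + 1) y)
    linarith

lemma exists_inner (s : Multiset ℂ) (hs : ∀ a ∈ s, ‖a‖ ≤ 1) :
    ∃ F : PowerSeries ℂ, F * (s.map uA).prod = (s.map uB).prod ∧
      ∀ N v, SN N (F * v) ≤ SN N v := by
  induction s using Multiset.induction_on with
  | empty => exact ⟨1, by simp, by simp⟩
  | cons a s ih =>
    obtain ⟨F, hF1, hF2⟩ := ih (fun b hb => hs b (Multiset.mem_cons_of_mem hb))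
    have ha := hs a (Multiset.mem_cons_self _ _)
    have hunit : (uA a) * (uA a)⁻¹ = 1 := by
      apply PowerSeries.mul_inv_cancel
      simp [uA]
    refine ⟨(uB a * (uA a)⁻¹) * F, ?_, ?_⟩
    · rw [Multiset.map_cons, Multiset.prod_cons, Multiset.map_cons, Multiset.prod_cons, ← hF1]
      calc uB a * (uA a)⁻¹ * F * (uA a * (Multiset.map uA s).prod)
          = uB a * (uA a * (uA a)⁻¹) * (F * (Multiset.map uA s).prod) := by ring
        _ = _ := by rw [hunit, mul_one]
    · intro N v
      have h1 := SN_key a ((uA a)⁻¹ * (F * v)) N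
      have e1 : uA a * ((uA a)⁻¹ * (F * v)) = F * v := by rw [← mul_assoc, hunit, one_mul]
      rw [e1] at h1
      have e2 : uB a * (uA a)⁻¹ * F * v = uB a * ((uA a)⁻¹ * (F * v)) := by ring
      rw [e2]
      have h2 : 0 ≤ (1 - ‖a‖ ^ 2) * ‖PowerSeries.coeff N ((uA a)⁻¹ * (F * v))‖ ^ 2 := by
        apply mul_nonneg _ (by positivity)
        nlinarith [norm_nonneg a]
      have := hF2 N v
      linarith

lemma exists_inner' (s : Multiset ℂ) (hs : ∀ a ∈ s, 1 < ‖a‖) :
    ∃ F : PowerSeries ℂ, F * (s.map uB).prod = (s.map uA).prod ∧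
      ∀ N v, SN N (F * v) ≤ SN N v := by
  induction s using Multiset.induction_on with
  | empty => exact ⟨1, by simp, by simp⟩
  | cons a s ih =>
    obtain ⟨F, hF1, hF2⟩ := ih (fun b hb => hs b (Multiset.mem_cons_of_mem hb))
    have ha := hs a (Multiset.mem_cons_self _ _)
    have hunit : (uB a) * (uB a)⁻¹ = 1 := by
      apply PowerSeries.mul_inv_cancel
      simp only [uB, map_sub, PowerSeries.constantCoeff_X, PowerSeries.constantCoeff_C, zero_sub]
      intro h
      have : a = 0 := by simpa using h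
      rw [this, norm_zero] at ha
      linarith
    refine ⟨(uA a * (uB a)⁻¹) * F, ?_, ?_⟩
    · rw [Multiset.map_cons, Multiset.prod_cons, Multiset.map_cons, Multiset.prod_cons, ← hF1]
      calc uA a * (uB a)⁻¹ * F * (uB a * (Multiset.map uB s).prod)
          = uA a * (uB a * (uB a)⁻¹) * (F * (Multiset.map uB s).prod) := by ring
        _ = _ := by rw [hunit, mul_one]
    · intro N v
      have h1 := SN_key a ((uB a)⁻¹ * (F * v)) N
      have e1 : uB a * ((uB a)⁻¹ * (F * v)) = F * v := by rw [← mul_assoc, hunit, one_mul]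
      rw [e1] at h1
      have e2 : uA a * (uB a)⁻¹ * F * v = uA a * ((uB a)⁻¹ * (F * v)) := by ring
      rw [e2]
      have h2 : (1 - ‖a‖ ^ 2) * ‖PowerSeries.coeff N ((uB a)⁻¹ * (F * v))‖ ^ 2 ≤ 0 := by
        apply mul_nonpos_of_nonpos_of_nonneg _ (by positivity)
        nlinarith [norm_nonneg a]
      have := hF2 N v
      linarith

lemma toPS_X_sub_C (a : ℂ) : ((X - C a : ℂ[X]) : PowerSeries ℂ) = uB a := by
  rw [uB]
  ext n
  simp [PowerSeries.coeff_X, PowerSeries.coeff_C]

lemma reverse_X_sub_C (a : ℂ) : (X - C a : ℂ[X]).reverse = 1 - C a * X := by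
  ext n
  rw [Polynomial.coeff_reverse, Polynomial.natDegree_X_sub_C]
  rcases Nat.lt_or_ge 1 n with h1 | h1
  · rw [Polynomial.revAt_eq_self_of_lt h1]
    rw [Polynomial.coeff_sub, Polynomial.coeff_sub, Polynomial.coeff_X, Polynomial.coeff_C,
      Polynomial.coeff_one, Polynomial.coeff_C_mul, Polynomial.coeff_X]
    rw [if_neg (by omega), if_neg (by omega), if_neg (by omega)]
    simp
  · rw [Polynomial.revAt_le h1]
    interval_cases n
    · simp
    · simp [Polynomial.coeff_one]

lemma reverse_prod (s : Multiset ℂ) :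
    ((s.map (fun a => (X - C a : ℂ[X]))).prod).reverse =
      (s.map (fun a => (1 - C a * X : ℂ[X]))).prod := by
  induction s using Multiset.induction_on with
  | empty =>
    rw [Multiset.map_zero, Multiset.prod_zero, Multiset.map_zero, Multiset.prod_zero]
    simpa using Polynomial.reverse_C (1 : ℂ)
  | cons a s ih =>
    rw [Multiset.map_cons, Multiset.prod_cons, Polynomial.reverse_mul_of_domain, ih,
      Multiset.map_cons, Multiset.prod_cons, reverse_X_sub_C]

/-- the factorisation into inner functions -/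
lemma inner_data {f : ℤ[X]} (hf : f.Monic) :
    ∃ F H : PowerSeries ℂ, (∀ N v, SN N (F * v) ≤ SN N v) ∧ (∀ N v, SN N (H * v) ≤ SN N v) ∧
      F * PowerSeries.map (Int.castRingHom ℂ) (f.reverse : PowerSeries ℤ) =
        H * PowerSeries.map (Int.castRingHom ℂ) (f : PowerSeries ℤ) ∧
      ‖PowerSeries.coeff 0 H‖ * (cc f).mahlerMeasure = 1 := by
  classical
  obtain ⟨R, hR⟩ : ∃ R, R = (f.map (Int.castRingHom ℂ)).roots := ⟨_, rfl⟩
  obtain ⟨s, hs⟩ : ∃ s, s = R.filter (fun a => ‖a‖ ≤ 1) := ⟨_, rfl⟩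
  obtain ⟨t, ht⟩ : ∃ t, t = R.filter (fun a => ¬ ‖a‖ ≤ 1) := ⟨_, rfl⟩
  have hst : s + t = R := by rw [hs, ht]; exact Multiset.filter_add_not _ _
  obtain ⟨F, hF1, hF2⟩ := exists_inner s (fun a ha => by
    rw [hs] at ha; exact (Multiset.mem_filter.1 ha).2)
  obtain ⟨H, hH1, hH2⟩ := exists_inner' t (fun a ha => by
    rw [ht] at ha; exact not_le.1 (Multiset.mem_filter.1 ha).2)
  have hfm : (f.map (Int.castRingHom ℂ)).Monic := hf.map _
  have hfprod : f.map (Int.castRingHom ℂ) = (R.map (fun a => (X - C a : ℂ[X]))).prod := by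
    rw [hR]
    exact (IsAlgClosed.splits (f.map (Int.castRingHom ℂ))).eq_prod_roots_of_monic hfm
  have hPS : ∀ m : Multiset ℂ, (((m.map (fun a => (X - C a : ℂ[X]))).prod : ℂ[X]) : PowerSeries ℂ) =
      (m.map uB).prod := by
    intro m
    induction m using Multiset.induction_on with
    | empty => simp
    | cons a m ih =>
      rw [Multiset.map_cons, Multiset.prod_cons, Multiset.map_cons, Multiset.prod_cons,
        Polynomial.coe_mul, ih, toPS_X_sub_C]
  have hf_eq : ((f.map (Int.castRingHom ℂ) : ℂ[X]) : PowerSeries ℂ) = (R.map uB).prod := by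
    rw [hfprod, hPS]
  have hrev : ((f.reverse).map (Int.castRingHom ℂ)) =
      (R.map (fun a => (1 - C (starRingEnd ℂ a) * X : ℂ[X]))).prod := by
    have h1 : (f.map (Int.castRingHom ℂ)).reverse = (f.reverse).map (Int.castRingHom ℂ) := by
      ext n
      rw [Polynomial.coeff_reverse, Polynomial.coeff_map, Polynomial.coeff_map,
        Polynomial.coeff_reverse, Polynomial.natDegree_map_eq_of_injective
          (Int.cast_injective : Function.Injective (Int.castRingHom ℂ))]
    have h2 : (f.map (Int.castRingHom ℂ)).reverse = (R.map (fun a => (1 - C a * X : ℂ[X]))).prod := by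
      rw [hfprod, reverse_prod]
    have h3 : ((f.reverse).map (Int.castRingHom ℂ)).map (starRingEnd ℂ) =
        (f.reverse).map (Int.castRingHom ℂ) := by
      rw [Polynomial.map_map]
      congr 1
      exact RingHom.ext_int _ _
    rw [← h3, ← h1, h2, Polynomial.map_multiset_prod, Multiset.map_map]
    congr 1
    apply Multiset.map_congr rfl
    intro a _
    simp
  have hrevPS : (((f.reverse).map (Int.castRingHom ℂ) : ℂ[X]) : PowerSeries ℂ) = (R.map uA).prod := by
    rw [hrev]
    have : ∀ m : Multiset ℂ, (((m.map (fun a => (1 - C (starRingEnd ℂ a) * X : ℂ[X]))).prod : ℂ[X]) :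
        PowerSeries ℂ) = (m.map uA).prod := by
      intro m
      induction m using Multiset.induction_on with
      | empty => simp
      | cons a m ih =>
        rw [Multiset.map_cons, Multiset.prod_cons, Multiset.map_cons, Multiset.prod_cons,
          Polynomial.coe_mul, ih]
        congr 1
        rw [uA]
        simp
    exact this R
  have hcoe : ∀ g : ℤ[X], PowerSeries.map (Int.castRingHom ℂ) (g : PowerSeries ℤ) =
      ((g.map (Int.castRingHom ℂ) : ℂ[X]) : PowerSeries ℂ) := by
    intro g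
    ext n
    rw [PowerSeries.coeff_map, Polynomial.coeff_coe, Polynomial.coeff_coe, Polynomial.coeff_map]
  refine ⟨F, H, hF2, hH2, ?_, ?_⟩
  · rw [hcoe, hcoe, hrevPS, hf_eq, ← hst, Multiset.map_add, Multiset.prod_add, Multiset.map_add,
      Multiset.prod_add, ← mul_assoc, hF1, ← hH1]
    ring
  · have h1 := congrArg (fun v => ‖PowerSeries.constantCoeff v‖) hH1
    simp only [map_mul, norm_mul] at h1
    have h2 : ∀ m : Multiset ℂ, ‖PowerSeries.constantCoeff (m.map uB).prod‖ =
        (m.map (fun a => ‖a‖)).prod := by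
      intro m
      induction m using Multiset.induction_on with
      | empty => simp
      | cons a m ih =>
        rw [Multiset.map_cons, Multiset.prod_cons, map_mul, norm_mul, ih, Multiset.map_cons,
          Multiset.prod_cons]
        congr 1
        simp [uB]
    have h3 : ∀ m : Multiset ℂ, ‖PowerSeries.constantCoeff (m.map uA).prod‖ = 1 := by
      intro m
      induction m using Multiset.induction_on with
      | empty => simp
      | cons a m ih =>
        rw [Multiset.map_cons, Multiset.prod_cons, map_mul, norm_mul, ih]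
        simp [uA]
    rw [h2, h3] at h1
    have h4 : (cc f).mahlerMeasure = (t.map (fun a => ‖a‖)).prod := by
      rw [mahlerMeasure_eq_leadingCoeff_mul_prod_roots]
      unfold cc
      rw [hfm.leadingCoeff, norm_one, one_mul, ← hR, ← hst, Multiset.map_add, Multiset.prod_add]
      have h5 : (s.map (fun a => max 1 ‖a‖)).prod = 1 := by
        apply Multiset.prod_eq_one
        intro x hx
        obtain ⟨a, ha, rfl⟩ := Multiset.mem_map.1 hx
        rw [hs] at ha
        exact max_eq_left (Multiset.mem_filter.1 ha).2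
      have h6 : t.map (fun a => max 1 ‖a‖) = t.map (fun a => ‖a‖) := by
        apply Multiset.map_congr rfl
        intro a ha
        rw [ht] at ha
        exact max_eq_right (not_le.1 (Multiset.mem_filter.1 ha).2).le
      rw [h5, h6, one_mul]
    rw [h4, PowerSeries.coeff_zero_eq_constantCoeff_apply]
    exact h1

/-! ### real parts -/

/-- the real part of `κ F` -/
noncomputable def rp (κ : ℂ) (F : PowerSeries ℂ) : PowerSeries ℝ :=
  PowerSeries.mk fun n => (κ * PowerSeries.coeff n F).re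

lemma rp_mul (κ : ℂ) (F : PowerSeries ℂ) (v : PowerSeries ℝ) (n : ℕ) :
    PowerSeries.coeff n (rp κ F * v) =
      (κ * PowerSeries.coeff n (F * PowerSeries.map Complex.ofRealHom v)).re := by
  rw [PowerSeries.coeff_mul, PowerSeries.coeff_mul, Finset.mul_sum, Complex.re_sum]
  refine Finset.sum_congr rfl fun p _ => ?_
  rw [rp, PowerSeries.coeff_mk, PowerSeries.coeff_map, ← mul_assoc]
  simp only [Complex.ofRealHom_eq_coe, Complex.re_mul_ofReal]

lemma con_rp {κ : ℂ} (hκ : ‖κ‖ = 1) {F : PowerSeries ℂ} (hF : ∀ N v, SN N (F * v) ≤ SN N v) :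
    Con (rp κ F) := by
  intro N v
  have h1 := hF N (PowerSeries.map Complex.ofRealHom v)
  have h2 : SN N (PowerSeries.map Complex.ofRealHom v) = SR N v := by
    unfold SN SR
    refine Finset.sum_congr rfl fun n _ => ?_
    rw [PowerSeries.coeff_map]
    simp
  rw [h2] at h1
  refine le_trans ?_ h1
  unfold SN SR
  refine Finset.sum_le_sum fun n _ => ?_
  rw [rp_mul]
  have h3 := Complex.abs_re_le_norm
    (κ * PowerSeries.coeff n (F * PowerSeries.map Complex.ofRealHom v))
  rw [norm_mul, hκ, one_mul] at h3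
  rw [← sq_abs]
  gcongr

/-! ### the constant -/

lemma theta : ∃ θ : ℝ, 1 < θ ∧ θ ^ 3 = θ + 1 ∧
    (cc (X ^ 3 - X - 1)).mahlerMeasure = θ := by
  obtain ⟨θ, ⟨hθ1, hθ2⟩, hθ⟩ : (0 : ℝ) ∈ (fun x : ℝ => x ^ 3 - x - 1) '' Set.Icc 1 2 := by
    apply intermediate_value_Icc (by norm_num)
    · fun_prop
    · constructor <;> norm_num
  simp only at hθ
  have h3 : θ ^ 3 = θ + 1 := by linarith
  have h1 : 1 < θ := by
    rcases hθ1.lt_or_eq with h | h
    · exact h
    · rw [← h] at h3
      norm_num at h3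
  refine ⟨θ, h1, h3, ?_⟩
  have hpos : 0 < θ := by linarith
  have e1 : cc (X ^ 3 - X - 1) = (X - C (θ : ℂ)) *
      (X ^ 2 + C (θ : ℂ) * X + C ((1 / θ : ℝ) : ℂ)) := by
    unfold cc
    simp only [Polynomial.map_sub, Polynomial.map_pow, Polynomial.map_X, Polynomial.map_one]
    have e2 : (X - C (θ : ℂ)) * (X ^ 2 + C (θ : ℂ) * X + C ((1 / θ : ℝ) : ℂ)) =
        X ^ 3 - C ((θ : ℂ) * θ - ((1 / θ : ℝ) : ℂ)) * X - C ((θ : ℂ) * ((1 / θ : ℝ) : ℂ)) := by
      rw [C_sub, C_mul, C_mul]
      ring
    have e3 : (θ : ℂ) * ((1 / θ : ℝ) : ℂ) = 1 := by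
      rw [← Complex.ofReal_mul, mul_one_div_cancel hpos.ne', Complex.ofReal_one]
    have e4 : (θ : ℂ) * θ - ((1 / θ : ℝ) : ℂ) = 1 := by
      rw [← Complex.ofReal_mul, ← Complex.ofReal_sub]
      have : θ * θ - 1 / θ = 1 := by
        field_simp
        linarith
      rw [this, Complex.ofReal_one]
    rw [e2, e3, e4, C_1, one_mul]
  have hdeg : (X ^ 2 + C (θ : ℂ) * X + C ((1 / θ : ℝ) : ℂ)).Monic := by
    monicity!
  have e5 : (X ^ 2 + C (θ : ℂ) * X + C ((1 / θ : ℝ) : ℂ)).mahlerMeasure = 1 := by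
    rw [mahlerMeasure_eq_leadingCoeff_mul_prod_roots, hdeg.leadingCoeff, norm_one, one_mul]
    apply Multiset.prod_eq_one
    intro x hx
    obtain ⟨z, hz, rfl⟩ := Multiset.mem_map.1 hx
    apply max_eq_left
    have h5 := (Polynomial.mem_roots'.1 hz).2
    rw [Polynomial.IsRoot.def] at h5
    simp only [eval_add, eval_mul, eval_pow, eval_X, eval_C] at h5
    have hre := congrArg Complex.re h5
    have him := congrArg Complex.im h5
    simp only [sq, Complex.add_re, Complex.mul_re, Complex.ofReal_re, Complex.ofReal_im,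
      Complex.zero_re, Complex.add_im, Complex.mul_im, Complex.zero_im] at hre him
    have hinv : 0 < 1 / θ := by positivity
    have hinv2 : θ * (1 / θ) = 1 := mul_one_div_cancel hpos.ne'
    have h6 : ‖z‖ ^ 2 ≤ 1 := by
      rw [Complex.sq_norm, Complex.normSq_apply]
      have h7 : z.im * (2 * z.re + θ) = 0 := by nlinarith
      rcases mul_eq_zero.1 h7 with h8 | h8
      · exfalso
        rw [h8] at hre
        have h9 : (z.re + θ / 2) ^ 2 = θ ^ 2 / 4 - 1 / θ := by nlinarith
        have h10 : θ * (z.re + θ / 2) ^ 2 = θ ^ 3 / 4 - 1 := by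
          rw [h9]
          field_simp
        have h11 : 0 ≤ θ * (z.re + θ / 2) ^ 2 := by positivity
        rw [h10, h3] at h11
        linarith
      · have h9 : z.re = - θ / 2 := by linarith
        have h10 : z.re * z.re + z.im * z.im = 1 / θ := by
          rw [h9] at hre ⊢
          nlinarith
        rw [h10, div_le_one hpos]
        exact h1.le
    nlinarith [norm_nonneg z]
  rw [e1, mahlerMeasure_mul, e5, mul_one, mahlerMeasure_X_sub_C, Complex.norm_real,
    Real.norm_of_nonneg hpos.le]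
  exact max_eq_right h1.le

/-- package SM: the theorem of Smyth -/
theorem sm : S_SM := by
  intro P hP h0 hr1 hr2
  obtain ⟨F, H, hF, hH, hid, hM⟩ := inner_data hP
  obtain ⟨θ, hθ1, hθ3, hθM⟩ := theta
  rw [hθM]
  obtain ⟨M, hMdef⟩ : ∃ M, M = (cc P).mahlerMeasure := ⟨_, rfl⟩
  rw [← hMdef] at hM ⊢
  obtain ⟨c, hc⟩ : ∃ c, c = ‖PowerSeries.coeff 0 H‖ := ⟨_, rfl⟩
  rw [← hc] at hM
  have hM0 : 0 ≤ M := by rw [hMdef]; exact mahlerMeasure_nonneg _
  have hc0 : 0 < c := by
    rcases (norm_nonneg (PowerSeries.coeff 0 H)).lt_or_eq with h | h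
    · rwa [hc]
    · rw [hc, ← h, zero_mul] at hM
      exact absurd hM zero_ne_one
  -- the integral power series
  obtain ⟨u, hu⟩ : ∃ u, u = P.coeff 0 := ⟨_, rfl⟩
  have hu1 : u = 1 ∨ u = -1 := by
    rw [← hu] at h0
    rcases abs_cases u with h | h <;> omega
  have huu : u * u = 1 := by rcases hu1 with h | h <;> rw [h] <;> norm_num
  have hrc : PowerSeries.constantCoeff ((P.reverse : ℤ[X]) : PowerSeries ℤ) = ((1 : ℤˣ) : ℤ) := by
    rw [Polynomial.constantCoeff_coe, Polynomial.coeff_zero_reverse, hP.leadingCoeff]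
    rfl
  obtain ⟨I, hI⟩ : ∃ I : PowerSeries ℤ, ((P.reverse : ℤ[X]) : PowerSeries ℤ) * I = 1 :=
    ⟨_, PowerSeries.mul_invOfUnit _ 1 hrc⟩
  obtain ⟨G, hG⟩ : ∃ G : PowerSeries ℤ, G = PowerSeries.C u * (P : PowerSeries ℤ) * I := ⟨_, rfl⟩
  have hI0 : PowerSeries.constantCoeff I = 1 := by
    have h1 := congrArg PowerSeries.constantCoeff hI
    rw [map_mul, hrc, map_one] at h1
    simpa using h1
  have hG0 : PowerSeries.coeff 0 G = 1 := by
    rw [PowerSeries.coeff_zero_eq_constantCoeff_apply, hG, map_mul, map_mul, hI0,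
      PowerSeries.constantCoeff_C, Polynomial.constantCoeff_coe, ← hu, huu, mul_one]
  have hGne : ∃ n, 0 < n ∧ PowerSeries.coeff n G ≠ 0 := by
    by_contra hcon
    push Not at hcon
    have h1 : G = 1 := by
      ext n
      rcases Nat.eq_zero_or_pos n with h | h
      · rw [h, hG0]
        simp
      · rw [hcon n h, PowerSeries.coeff_one, if_neg h.ne']
    have h2 : PowerSeries.C u * (P : PowerSeries ℤ) = ((P.reverse : ℤ[X]) : PowerSeries ℤ) := by
      have h3 : PowerSeries.C u * (P : PowerSeries ℤ) *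
          (((P.reverse : ℤ[X]) : PowerSeries ℤ) * I) = ((P.reverse : ℤ[X]) : PowerSeries ℤ) * G := by
        rw [hG]
        ring
      rwa [hI, h1, mul_one, mul_one] at h3
    have h4 : C u * P = P.reverse := by
      apply Polynomial.coe_injective
      rw [Polynomial.coe_mul, Polynomial.coe_C]
      exact h2
    rcases hu1 with h | h
    · rw [h, C_1, one_mul] at h4
      exact hr1 h4
    · rw [h] at h4
      apply hr2
      rw [← h4]
      simp
  -- the relation
  have hrelC : PowerSeries.C (u : ℂ) * F = H * PowerSeries.map (Int.castRingHom ℂ) G := by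
    have h1 : PowerSeries.map (Int.castRingHom ℂ) ((P.reverse : ℤ[X]) : PowerSeries ℤ) *
        PowerSeries.map (Int.castRingHom ℂ) I = 1 := by
      rw [← map_mul, hI, map_one]
    calc PowerSeries.C (u : ℂ) * F = PowerSeries.C (u : ℂ) *
          (F * PowerSeries.map (Int.castRingHom ℂ) ((P.reverse : ℤ[X]) : PowerSeries ℤ)) *
          PowerSeries.map (Int.castRingHom ℂ) I := by
            rw [mul_assoc, mul_assoc F, h1, mul_one]
      _ = PowerSeries.C (u : ℂ) * (H * PowerSeries.map (Int.castRingHom ℂ) (P : PowerSeries ℤ)) *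
          PowerSeries.map (Int.castRingHom ℂ) I := by rw [hid]
      _ = _ := by
        rw [hG, map_mul, map_mul, PowerSeries.map_C]
        simp only [eq_intCast]
        ring
  obtain ⟨κ, hκ⟩ : ∃ κ : ℂ, κ = starRingEnd ℂ (PowerSeries.coeff 0 H) / (c : ℂ) := ⟨_, rfl⟩
  have hcC : (c : ℂ) ≠ 0 := Complex.ofReal_ne_zero.2 hc0.ne'
  have hκ1 : ‖κ‖ = 1 := by
    rw [hκ, norm_div, RCLike.norm_conj, Complex.norm_real, Real.norm_of_nonneg hc0.le, ← hc,
      div_self hc0.ne']
  have hκH : κ * PowerSeries.coeff 0 H = c := by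
    rw [hκ, div_mul_eq_mul_div, mul_comm, Complex.mul_conj, Complex.normSq_eq_norm_sq, ← hc]
    push_cast
    field_simp
  have huC : ‖(u : ℂ)‖ = 1 := by
    rw [Complex.norm_intCast]
    rcases hu1 with h | h <;> rw [h] <;> norm_num
  have hrel : rp (κ * u) F = rp κ H * PowerSeries.map (Int.castRingHom ℝ) G := by
    ext n
    rw [rp_mul, rp, PowerSeries.coeff_mk]
    have h1 : PowerSeries.map Complex.ofRealHom (PowerSeries.map (Int.castRingHom ℝ) G) =
        PowerSeries.map (Int.castRingHom ℂ) G := by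
      ext n
      simp
    rw [h1, ← hrelC, PowerSeries.coeff_C_mul, mul_assoc]
  have hHc : PowerSeries.coeff 0 (rp κ H) = c := by
    rw [rp, PowerSeries.coeff_mk, hκH, Complex.ofReal_re]
  have hFc : PowerSeries.coeff 0 (rp (κ * u) F) = c := by
    rw [hrel, PowerSeries.coeff_zero_eq_constantCoeff_apply, map_mul,
      ← PowerSeries.coeff_zero_eq_constantCoeff_apply, hHc,
      ← PowerSeries.coeff_zero_eq_constantCoeff_apply, PowerSeries.coeff_map, hG0]
    simp
  have hfin := core (con_rp (by rw [norm_mul, hκ1, huC, one_mul]) hF) (con_rp hκ1 hH) hc0 hFc hHc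
    hrel hG0 hGne
  -- conclusion
  have hMpos : 0 < M := by
    rcases hM0.lt_or_eq with h | h
    · exact h
    · rw [← h, mul_zero] at hM
      exact absurd hM zero_ne_one
  have h1 : 1 + M ≤ M ^ 3 := by
    have h2 := mul_le_mul_of_nonneg_right hfin (by positivity : 0 ≤ M ^ 3)
    have e1 : (c ^ 3 + c ^ 2) * M ^ 3 = (c * M) ^ 3 + (c * M) ^ 2 * M := by ring
    rw [e1, hM] at h2
    linarith
  by_contra hlt
  rw [not_le] at hlt
  have hM1 : 1 < M := by
    by_contra h
    rw [not_lt] at h
    nlinarith [sq_nonneg M]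
  nlinarith [mul_pos (sub_pos.2 hlt) (by positivity : 0 < θ ^ 2 + θ * M + M ^ 2),
    mul_pos (sub_pos.2 hlt) (by nlinarith : 0 < θ ^ 2 + θ * M + M ^ 2 - 1)]

end Pool.Agent.Helper7.GP
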