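import Pool.Agent.Helper40.GP.Stm

/-! Package CV: the Cauchy-Vandermonde inequality. -/

set_option autoImplicit false

open Polynomial Pool.Agent.Helper40.GP

namespace Pool.Agent.Helper7.GP

lemma V2_ite {ι : Type} [Fintype ι] [DecidableEq ι] (z : ι → ℂ) :
    V2 z = ∏ i, ∏ j, if j ≠ i then ‖z i - z j‖ else 1 := by
  unfold V2
  refine Finset.prod_congr rfl fun i _ => ?_
  rw [← Finset.prod_filter, Finset.filter_ne']

lemma V2_equiv {ι κ : Type} [Fintype ι] [DecidableEq ι] [Fintype κ] [DecidableEq κ] (e : ι ≃ κ)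
    (z : κ → ℂ) : V2 (fun i => z (e i)) = V2 z := by
  rw [V2_ite, V2_ite]
  rw [← e.prod_comp]
  refine Finset.prod_congr rfl fun i _ => ?_
  rw [← e.prod_comp]
  refine Finset.prod_congr rfl fun j _ => ?_
  by_cases h : j = i
  · subst h
    simp
  · have h' : e j ≠ e i := fun h2 => h (e.injective h2)
    simp [h, h']

lemma V2_sum {ι κ : Type} [Fintype ι] [DecidableEq ι] [Fintype κ] [DecidableEq κ]
    (y : ι → ℂ) (w : κ → ℂ) :
    V2 (Sum.elim y w) = V2 y * V2 w * (∏ i, ∏ j, ‖y i - w j‖) ^ 2 := by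
  rw [V2_ite, V2_ite, V2_ite, Fintype.prod_sum_type]
  simp only [Fintype.prod_sum_type, Sum.elim_inl, Sum.elim_inr, ne_eq, Sum.inl.injEq,
    Sum.inr.injEq, reduceCtorEq, not_false_eq_true, if_true, Finset.prod_mul_distrib]
  have h : ∏ j, ∏ i, ‖w j - y i‖ = ∏ i, ∏ j, ‖y i - w j‖ := by
    rw [Finset.prod_comm]
    refine Finset.prod_congr rfl fun i _ => Finset.prod_congr rfl fun j _ => ?_
    rw [norm_sub_rev]
  rw [h]
  ring

lemma V2_vand {n : ℕ} (v : Fin n → ℂ) : ‖(Matrix.vandermonde v).det‖ ^ 2 = V2 v := by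
  rw [Matrix.det_vandermonde, norm_prod]
  simp only [norm_prod]
  have h1 : V2 v = (∏ i, ∏ j ∈ Finset.Ioi i, ‖v i - v j‖) * ∏ i, ∏ j ∈ Finset.Iio i, ‖v i - v j‖ := by
    unfold V2
    rw [← Finset.prod_mul_distrib]
    refine Finset.prod_congr rfl fun i _ => ?_
    rw [← Finset.compl_singleton, ← Finset.Ioi_disjUnion_Iio, Finset.prod_disjUnion]
  have h2 : ∏ i, ∏ j ∈ Finset.Iio i, ‖v i - v j‖ = ∏ i, ∏ j ∈ Finset.Ioi i, ‖v j - v i‖ := by
    refine Finset.prod_comm' ?_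
    intro x y
    simp
  have h3 : ∏ i, ∏ j ∈ Finset.Ioi i, ‖v i - v j‖ = ∏ i, ∏ j ∈ Finset.Ioi i, ‖v j - v i‖ := by
    refine Finset.prod_congr rfl fun i _ => Finset.prod_congr rfl fun j _ => ?_
    rw [norm_sub_rev]
  rw [h1, h2, h3, sq]

/-- evaluation matrices -/
lemma det_eval {q M : ℕ} (u : Fin q ⊕ Fin M → ℂ) (P : Fin q ⊕ Fin M → ℂ[X])
    (hP : ∀ c, (P c).natDegree < q + M) :
    ‖(Matrix.of fun r c => (P c).eval (u r)).det‖ ^ 2 = V2 u *
      ‖(Matrix.of fun k c => (P c).coeff (finSumFinEquiv k : Fin (q + M))).det‖ ^ 2 := by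
  have h1 : (Matrix.of fun r c => (P c).eval (u r)) =
      ((Matrix.vandermonde (fun i => u (finSumFinEquiv.symm i))).submatrix
        finSumFinEquiv finSumFinEquiv) *
        (Matrix.of fun k c => (P c).coeff (finSumFinEquiv k : Fin (q + M))) := by
    ext r c
    rw [Matrix.mul_apply]
    simp only [Matrix.of_apply, Matrix.submatrix_apply, Matrix.vandermonde_apply,
      Equiv.symm_apply_apply]
    rw [eval_eq_sum_range' (hP c), ← Fin.sum_univ_eq_sum_range
      (fun i => (P c).coeff i * (u r) ^ i), ← finSumFinEquiv.sum_comp]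
    refine Finset.sum_congr rfl fun k _ => ?_
    ring
  rw [h1, Matrix.det_mul, norm_mul, mul_pow, Matrix.det_submatrix_equiv_self, V2_vand]
  congr 1
  exact V2_equiv finSumFinEquiv.symm u

/-- the exponents -/
noncomputable def ee {q : ℕ} (M : ℕ) (y : Fin q → ℂ) (j : Fin q) : ℕ := if 1 < ‖y j‖ then M else 0

/-- the polynomials -/
noncomputable def pp {q : ℕ} (M : ℕ) (y : Fin q → ℂ) : Fin q ⊕ Fin M → ℂ[X]
  | Sum.inl j => (∏ j' ∈ Finset.univ.erase j, (X - C (y j'))) * X ^ ee M y j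
  | Sum.inr m => X ^ (m : ℕ) * ∏ j, (X - C (y j))

lemma ee_le {q : ℕ} (M : ℕ) (y : Fin q → ℂ) (j : Fin q) : ee M y j ≤ M := by
  unfold ee
  split_ifs <;> omega

lemma pp_deg {q : ℕ} (M : ℕ) (y : Fin q → ℂ) (c : Fin q ⊕ Fin M) :
    (pp M y c).natDegree < q + M := by
  rcases c with j | m
  · have h1 : (∏ j' ∈ Finset.univ.erase j, (X - C (y j'))).natDegree ≤ q - 1 := by
      refine (natDegree_prod_le _ _).trans ?_
      simp only [natDegree_X_sub_C, Finset.sum_const, smul_eq_mul, mul_one]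
      rw [Finset.card_erase_of_mem (Finset.mem_univ _), Finset.card_univ, Fintype.card_fin]
    have h2 : (pp M y (Sum.inl j)).natDegree ≤ (q - 1) + ee M y j := by
      refine natDegree_mul_le.trans (add_le_add h1 ?_)
      exact natDegree_X_pow_le _
    have h3 := ee_le M y j
    have h4 := j.pos
    omega
  · have h1 : (∏ j, (X - C (y j))).natDegree ≤ q := by
      refine (natDegree_prod_le _ _).trans ?_
      simp only [natDegree_X_sub_C, Finset.sum_const, smul_eq_mul, mul_one]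
      rw [Finset.card_univ, Fintype.card_fin]
    have h2 : (pp M y (Sum.inr m)).natDegree ≤ (m : ℕ) + q := by
      refine natDegree_mul_le.trans (add_le_add ?_ h1)
      exact natDegree_X_pow_le _
    have h4 := m.2
    omega

lemma V2_ne {ι : Type} [Fintype ι] [DecidableEq ι] {z : ι → ℂ} (hz : Function.Injective z) :
    V2 z ≠ 0 := by
  unfold V2
  refine Finset.prod_ne_zero_iff.2 fun i _ => Finset.prod_ne_zero_iff.2 fun j hj => ?_
  rw [norm_ne_zero_iff, sub_ne_zero]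
  intro h
  exact (Finset.mem_erase.1 hj).1 (hz h).symm

lemma V2_nonneg {ι : Type} [Fintype ι] [DecidableEq ι] (z : ι → ℂ) : 0 ≤ V2 z := by
  unfold V2
  positivity

lemma V2_zero {ι : Type} [Fintype ι] [DecidableEq ι] {z : ι → ℂ} (hz : ¬ Function.Injective z) :
    V2 z = 0 := by
  rw [Function.not_injective_iff] at hz
  obtain ⟨a, b, h1, h2⟩ := hz
  unfold V2
  refine Finset.prod_eq_zero (Finset.mem_univ a) (Finset.prod_eq_zero (i := b) ?_ ?_)
  · exact Finset.mem_erase.2 ⟨h2.symm, Finset.mem_univ _⟩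
  · rw [h1, sub_self, norm_zero]

/-- the matrix of coefficients -/
noncomputable def CM {q : ℕ} (M : ℕ) (y : Fin q → ℂ) : Matrix (Fin q ⊕ Fin M) (Fin q ⊕ Fin M) ℂ :=
  Matrix.of fun k c => (pp M y c).coeff (finSumFinEquiv k : Fin (q + M))

lemma exists_w {q : ℕ} (M : ℕ) (y : Fin q → ℂ) : ∃ w : Fin M → ℂ, Function.Injective w ∧
    ∀ j m, y j ≠ w m := by
  refine ⟨fun m => (((1 + ∑ j, ‖y j‖) + (m : ℕ) : ℝ) : ℂ), ?_, ?_⟩
  · intro m m' h
    simp only at h
    rw [Complex.ofReal_inj] at h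
    have h2 : ((m : ℕ) : ℝ) = ((m' : ℕ) : ℝ) := by linarith
    exact Fin.ext (by exact_mod_cast h2)
  · intro j m h
    have h1 : ‖y j‖ = |(1 + ∑ j, ‖y j‖) + (m : ℕ)| := by
      rw [h, Complex.norm_real, Real.norm_eq_abs]
    have h2 : ‖y j‖ ≤ ∑ j, ‖y j‖ :=
      Finset.single_le_sum (f := fun j => ‖y j‖) (fun _ _ => norm_nonneg _) (Finset.mem_univ j)
    have h3 := le_abs_self ((1 + ∑ j, ‖y j‖) + ((m : ℕ) : ℝ))
    have h4 : (0 : ℝ) ≤ (m : ℕ) := Nat.cast_nonneg _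
    linarith

lemma det_CM {q : ℕ} (M : ℕ) (y : Fin q → ℂ) (hy : Function.Injective y) :
    ‖(CM M y).det‖ ^ 2 = V2 y * (∏ j, ‖y j‖ ^ ee M y j) ^ 2 := by
  obtain ⟨w, hw, hyw⟩ := exists_w M y
  have h1 := det_eval (Sum.elim y w) (pp M y) (pp_deg M y)
  rw [V2_sum] at h1
  have h2 : (Matrix.of fun r c => (pp M y c).eval (Sum.elim y w r)) = Matrix.fromBlocks
      (Matrix.diagonal fun j => (∏ j' ∈ Finset.univ.erase j, (y j - y j')) * y j ^ ee M y j) 0
      (Matrix.of fun m j => (pp M y (Sum.inl j)).eval (w m))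
      (Matrix.of fun m m' => (∏ j, (w m - y j)) * (Matrix.vandermonde w) m m') := by
    ext r c
    rcases r with j | m
    · rcases c with j' | m'
      · simp only [Matrix.of_apply, Matrix.fromBlocks_apply₁₁, Sum.elim_inl, pp, eval_mul,
          eval_pow, eval_X, eval_prod, eval_sub, eval_C]
        by_cases h : j = j'
        · subst h
          rw [Matrix.diagonal_apply_eq]
        · rw [Matrix.diagonal_apply_ne _ h]
          have h3 : ∏ j_1 ∈ Finset.univ.erase j', (y j - y j_1) = 0 :=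
            Finset.prod_eq_zero (Finset.mem_erase.2 ⟨h, Finset.mem_univ _⟩) (sub_self _)
          rw [h3, zero_mul]
      · simp only [Matrix.of_apply, Matrix.fromBlocks_apply₁₂, Sum.elim_inl, pp, eval_mul,
          eval_pow, eval_X, eval_prod, eval_sub, eval_C, Matrix.zero_apply]
        rw [Finset.prod_eq_zero (Finset.mem_univ j) (sub_self _), mul_zero]
    · rcases c with j' | m'
      · simp only [Matrix.of_apply, Matrix.fromBlocks_apply₂₁, Sum.elim_inr]
      · simp only [Matrix.of_apply, Matrix.fromBlocks_apply₂₂, Sum.elim_inr, pp, eval_mul,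
          eval_pow, eval_X, eval_prod, eval_sub, eval_C, Matrix.vandermonde_apply]
        ring
  rw [h2, Matrix.det_fromBlocks_zero₁₂, Matrix.det_diagonal, Matrix.det_mul_column, norm_mul,
    norm_mul, mul_pow, mul_pow, V2_vand] at h1
  have h3 : ‖∏ j, (∏ j' ∈ Finset.univ.erase j, (y j - y j')) * y j ^ ee M y j‖ =
      V2 y * ∏ j, ‖y j‖ ^ ee M y j := by
    rw [Finset.prod_mul_distrib, norm_mul, norm_prod, norm_prod]
    simp only [norm_prod, norm_pow]
    rfl
  have h4 : ‖∏ m, ∏ j, (w m - y j)‖ = ∏ i, ∏ j, ‖y i - w j‖ := by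
    simp only [norm_prod]
    rw [Finset.prod_comm]
    refine Finset.prod_congr rfl fun i _ => Finset.prod_congr rfl fun j _ => ?_
    rw [norm_sub_rev]
  rw [h3, h4] at h1
  have h5 : V2 y * V2 w * (∏ i, ∏ j, ‖y i - w j‖) ^ 2 ≠ 0 := by
    refine mul_ne_zero (mul_ne_zero (V2_ne hy) (V2_ne hw)) (pow_ne_zero 2 ?_)
    refine Finset.prod_ne_zero_iff.2 fun i _ => Finset.prod_ne_zero_iff.2 fun j _ => ?_
    rw [norm_ne_zero_iff, sub_ne_zero]
    exact hyw i j
  refine mul_left_cancel₀ h5 ?_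
  unfold CM
  rw [← h1]
  ring

lemma ee_norm {q : ℕ} (M : ℕ) (y : Fin q → ℂ) (j : Fin q) :
    ‖y j‖ ^ ee M y j = (max 1 ‖y j‖) ^ M := by
  unfold ee
  split_ifs with h
  · rw [max_eq_right h.le]
  · rw [max_eq_left (not_lt.1 h), one_pow, pow_zero]

theorem cv_aux {q M : ℕ} (z : Fin (q + M) → ℂ) (y : Fin q → ℂ) (B : Fin (q + M) → ℝ)
    (hzy : ∀ i j, z i ≠ y j) (hB : ∀ i, 1 ≤ B i) (hBz : ∀ i j, 1 ≤ B i * ‖z i - y j‖) :
    V2 z * V2 y * (∏ j, (max 1 ‖y j‖)) ^ (2 * M) ≤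
    (∏ i, ∏ j, ‖z i - y j‖) ^ 2 * ((q + M).factorial : ℝ) ^ 2 *
      (∏ i, (max 1 ‖z i‖)) ^ (2 * M) * (∏ i, B i) ^ 2 := by
  have hB0 : 0 ≤ ∏ i, B i := Finset.prod_nonneg fun i _ => by linarith [hB i]
  by_cases hy : Function.Injective y
  swap
  · rw [V2_zero hy]
    simp only [mul_zero, zero_mul]
    positivity
  have h1 := det_eval (fun r => z (finSumFinEquiv r)) (pp M y) (pp_deg M y)
  have h2 := det_CM M y hy
  unfold CM at h2
  rw [h2, V2_equiv finSumFinEquiv z] at h1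
  have h3 : ∏ j, ‖y j‖ ^ ee M y j = (∏ j, (max 1 ‖y j‖)) ^ M := by
    rw [← Finset.prod_pow]
    exact Finset.prod_congr rfl fun j _ => ee_norm M y j
  rw [h3] at h1
  obtain ⟨c, hc⟩ : ∃ c : Fin q ⊕ Fin M → ℂ, c = fun r =>
      (∏ j, (z (finSumFinEquiv r) - y j)) *
        ((((max 1 ‖z (finSumFinEquiv r)‖) ^ M * B (finSumFinEquiv r) : ℝ)) : ℂ) := ⟨_, rfl⟩
  have hpos : ∀ i, 0 < (max 1 ‖z i‖) ^ M * B i := by
    intro i
    have := hB i
    have h5 : (0 : ℝ) < max 1 ‖z i‖ := lt_of_lt_of_le one_pos (le_max_left _ _)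
    positivity
  have hQ : ∀ i, ∏ j, (z i - y j) ≠ 0 := fun i =>
    Finset.prod_ne_zero_iff.2 fun j _ => sub_ne_zero.2 (hzy i j)
  have hc0 : ∀ r, c r ≠ 0 := by
    intro r
    rw [hc]
    exact mul_ne_zero (hQ _) (Complex.ofReal_ne_zero.2 (hpos _).ne')
  have h4 : (Matrix.of fun r k => (pp M y k).eval (z (finSumFinEquiv r))) =
      Matrix.of fun r k => c r *
        (Matrix.of fun r k => (pp M y k).eval (z (finSumFinEquiv r)) / c r) r k := by
    ext r k
    simp only [Matrix.of_apply]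
    rw [mul_div_cancel₀ _ (hc0 r)]
  rw [h4, Matrix.det_mul_column, norm_mul] at h1
  have h5 : ‖(Matrix.of fun r k => (pp M y k).eval (z (finSumFinEquiv r)) / c r).det‖ ≤
      ((q + M).factorial : ℝ) := by
    have h6 := Matrix.det_le (A := Matrix.of fun r k =>
      (pp M y k).eval (z (finSumFinEquiv r)) / c r) (abv := NormedField.toAbsoluteValue ℂ)
      (x := (1 : ℝ)) ?_
    · simp only [one_pow, Fintype.card_sum, Fintype.card_fin, nsmul_eq_mul, mul_one] at h6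
      exact h6
    · intro r k
      change ‖(pp M y k).eval (z (finSumFinEquiv r)) / c r‖ ≤ 1
      obtain ⟨i, hi⟩ : ∃ i, i = (finSumFinEquiv r : Fin (q + M)) := ⟨_, rfl⟩
      rw [norm_div, div_le_one (norm_pos_iff.2 (hc0 r)), hc]
      simp only
      rw [← hi, norm_mul, Complex.norm_real, Real.norm_of_nonneg (hpos i).le]
      have hm1 : (1 : ℝ) ≤ max 1 ‖z i‖ := le_max_left _ _
      have hm2 : ‖z i‖ ≤ max 1 ‖z i‖ := le_max_right _ _
      have hpw : ∀ n, n ≤ M → ‖z i‖ ^ n ≤ (max 1 ‖z i‖) ^ M := by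
        intro n hn
        calc ‖z i‖ ^ n ≤ (max 1 ‖z i‖) ^ n := by gcongr
          _ ≤ (max 1 ‖z i‖) ^ M := pow_le_pow_right₀ hm1 hn
      rcases k with j | m
      · simp only [pp, eval_mul, eval_pow, eval_X, eval_prod, eval_sub, eval_C, norm_mul, norm_pow,
          norm_prod]
        rw [← Finset.mul_prod_erase Finset.univ (fun j => ‖z i - y j‖) (Finset.mem_univ j)]
        have h7 := hBz i j
        have h8 := hpw _ (ee_le M y j)
        have h9 : 0 ≤ ∏ x ∈ Finset.univ.erase j, ‖z i - y x‖ := by positivity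
        calc (∏ x ∈ Finset.univ.erase j, ‖z i - y x‖) * ‖z i‖ ^ ee M y j
            ≤ (∏ x ∈ Finset.univ.erase j, ‖z i - y x‖) * (max 1 ‖z i‖) ^ M * 1 := by
              rw [mul_one]
              gcongr
          _ ≤ (∏ x ∈ Finset.univ.erase j, ‖z i - y x‖) * (max 1 ‖z i‖) ^ M *
              (B i * ‖z i - y j‖) := by gcongr
          _ = _ := by ring
      · simp only [pp, eval_mul, eval_pow, eval_X, eval_prod, eval_sub, eval_C, norm_mul, norm_pow,
          norm_prod]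
        have h8 := hpw (m : ℕ) m.2.le
        have h9 : 0 ≤ ∏ j, ‖z i - y j‖ := by positivity
        calc ‖z i‖ ^ (m : ℕ) * ∏ j, ‖z i - y j‖ ≤
            (max 1 ‖z i‖) ^ M * (∏ j, ‖z i - y j‖) := by gcongr
          _ ≤ (max 1 ‖z i‖) ^ M * (∏ j, ‖z i - y j‖) * B i := by
            refine le_mul_of_one_le_right ?_ (hB i)
            positivity
          _ = _ := by ring
  have h6 : ‖∏ r, c r‖ = (∏ i, ∏ j, ‖z i - y j‖) * ((∏ i, (max 1 ‖z i‖)) ^ M * ∏ i, B i) := by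
    rw [hc, ← Finset.prod_pow, ← Finset.prod_mul_distrib, ← Finset.prod_mul_distrib, norm_prod,
      ← finSumFinEquiv.prod_comp]
    refine Finset.prod_congr rfl fun r _ => ?_
    rw [norm_mul, norm_prod, Complex.norm_real, Real.norm_of_nonneg (hpos _).le]
  rw [h6] at h1
  have e1 : V2 z * V2 y * (∏ j, (max 1 ‖y j‖)) ^ (2 * M) =
      V2 z * (V2 y * ((∏ j, (max 1 ‖y j‖)) ^ M) ^ 2) := by ring
  rw [e1, ← h1]
  have e2 : (∏ i, ∏ j, ‖z i - y j‖) ^ 2 * ((q + M).factorial : ℝ) ^ 2 *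
      (∏ i, (max 1 ‖z i‖)) ^ (2 * M) * (∏ i, B i) ^ 2 =
      ((∏ i, ∏ j, ‖z i - y j‖) * ((∏ i, (max 1 ‖z i‖)) ^ M * ∏ i, B i) *
        ((q + M).factorial : ℝ)) ^ 2 := by ring
  rw [e2]
  gcongr

/-- package CV -/
theorem cv : S_CV := by
  intro d q z y B hq hzy hB hBz
  obtain ⟨M, rfl⟩ := Nat.exists_eq_add_of_le hq
  have e : q + M - q = M := by omega
  rw [e]
  exact cv_aux z y B hzy hB hBz

end Pool.Agent.Helper7.GP
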